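import Pool.Agent.V7H96.SS.Mean

/-!
The energy of the star vector for a SparseStack matrix.
-/

set_option autoImplicit false

namespace Pool.Agent.V7H96.SS

open Finset

/-- An outcome: the positions `s i j` and the signs `ρ i j` (`true` for `+1`). -/
abbrev Outcome (n ζ b : ℕ) : Type := (Fin n → Fin ζ → Fin b) × (Fin n → Fin ζ → Bool)

/-- the sign `±1` -/
def sgn (t : Bool) : ℝ := if t then 1 else -1

/-- the squared Euclidean norm -/
def nsq {ι : Type} [Fintype ι] (v : ι → ℝ) : ℝ := ∑ i, v i ^ 2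

/-- the SparseStack matrix `Ω` (rows `Fin n`, columns `Fin ζ × Fin b`): the block `j` of the row `i`
is `ζ^(-1/2) ρ_ij e_{s_ij}` -/
noncomputable def Om {n ζ b : ℕ} (ω : Outcome n ζ b) : Matrix (Fin n) (Fin ζ × Fin b) ℝ :=
  fun i q => if ω.1 i q.1 = q.2 then sgn (ω.2 i q.1) / Real.sqrt ζ else 0

lemma sgn_mul_self (t : Bool) : sgn t * sgn t = 1 := by cases t <;> simp [sgn]
lemma sgn_sq (t : Bool) : sgn t ^ 2 = 1 := by cases t <;> simp [sgn]
lemma sgn_not (t : Bool) : sgn (!t) = - sgn t := by cases t <;> simp [sgn]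

lemma nsq_nonneg {ι : Type} [Fintype ι] (v : ι → ℝ) : 0 ≤ nsq v :=
  Finset.sum_nonneg fun _ _ => sq_nonneg _

lemma sq_le_nsq {ι : Type} [Fintype ι] (v : ι → ℝ) (i : ι) : v i ^ 2 ≤ nsq v :=
  Finset.single_le_sum (f := fun i => v i ^ 2) (fun _ _ => sq_nonneg _) (Finset.mem_univ i)

section
variable {n ζ : ℕ}

/-- flip of one sign -/
def fl (p : Fin n × Fin ζ) (ρ : Fin n → Fin ζ → Bool) : Fin n → Fin ζ → Bool :=
  fun i j => if (i, j) = p then !ρ i j else ρ i j

lemma fl_fl (p : Fin n × Fin ζ) (ρ : Fin n → Fin ζ → Bool) : fl p (fl p ρ) = ρ := by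
  funext i j
  unfold fl
  by_cases h : (i, j) = p <;> simp [h]

def flE (p : Fin n × Fin ζ) : (Fin n → Fin ζ → Bool) ≃ (Fin n → Fin ζ → Bool) where
  toFun := fl p
  invFun := fl p
  left_inv := fl_fl p
  right_inv := fl_fl p

lemma fl_ne {p : Fin n × Fin ζ} {ρ : Fin n → Fin ζ → Bool} {i : Fin n} {j : Fin ζ}
    (h : (i, j) ≠ p) : fl p ρ i j = ρ i j := if_neg h
lemma fl_eq {ρ : Fin n → Fin ζ → Bool} {i : Fin n} {j : Fin ζ} :
    fl (i, j) ρ i j = !ρ i j := if_pos rfl

variable {m : ℕ} (i0 : Fin n) (c : Fin ζ × Fin m → Fin n)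

/-- the sign of the contribution of the child `a` to the block `j'` -/
def tau (j' : Fin ζ) (a : Fin ζ × Fin m) (ρ : Fin n → Fin ζ → Bool) : ℝ :=
  sgn (ρ (c a) j') * (sgn (ρ i0 a.1) * sgn (ρ (c a) a.1))

lemma tau_mul_self (j' : Fin ζ) (a : Fin ζ × Fin m) (ρ : Fin n → Fin ζ → Bool) :
    tau i0 c j' a ρ * tau i0 c j' a ρ = 1 := by
  unfold tau
  have h1 := sgn_mul_self (ρ (c a) j')
  have h2 := sgn_mul_self (ρ i0 a.1)
  have h3 := sgn_mul_self (ρ (c a) a.1)
  calc _ = (sgn (ρ (c a) j') * sgn (ρ (c a) j')) * (sgn (ρ i0 a.1) * sgn (ρ i0 a.1)) *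
        (sgn (ρ (c a) a.1) * sgn (ρ (c a) a.1)) := by ring
    _ = 1 := by rw [h1, h2, h3]; norm_num

variable {i0 c}

lemma tau_orth (hc : Function.Injective c) (h0 : ∀ a, c a ≠ i0) {j' : Fin ζ}
    {a a' : Fin ζ × Fin m} (ha : a.1 ≠ j') (hne : a ≠ a') :
    mean (fun ρ => tau i0 c j' a ρ * tau i0 c j' a' ρ) = 0 := by
  have hcc : c a' ≠ c a := fun h => hne (hc h).symm
  have key : ∀ ρ, tau i0 c j' a (flE (c a, j') ρ) * tau i0 c j' a' (flE (c a, j') ρ) =
      (-1) * (tau i0 c j' a ρ * tau i0 c j' a' ρ) := by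
    intro ρ
    show tau i0 c j' a (fl (c a, j') ρ) * tau i0 c j' a' (fl (c a, j') ρ) = _
    unfold tau
    rw [fl_eq, sgn_not,
      fl_ne (i := i0) (j := a.1) (by rintro h; exact h0 a (congrArg Prod.fst h).symm),
      fl_ne (i := c a) (j := a.1) (by rintro h; exact ha (congrArg Prod.snd h)),
      fl_ne (i := c a') (j := j') (by rintro h; exact hcc (congrArg Prod.fst h)),
      fl_ne (i := i0) (j := a'.1) (by rintro h; exact h0 a (congrArg Prod.fst h).symm),
      fl_ne (i := c a') (j := a'.1) (by rintro h; exact hcc (congrArg Prod.fst h))]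
    ring
  have h1 := mean_equiv (flE (c a, j')) (fun ρ => tau i0 c j' a ρ * tau i0 c j' a' ρ)
  simp only [key] at h1
  rw [mean_mul_left] at h1
  linarith

lemma tau_sq_sum (hc : Function.Injective c) (h0 : ∀ a, c a ≠ i0) {j' : Fin ζ}
    (S : Finset (Fin ζ × Fin m)) (hS : ∀ a ∈ S, a.1 ≠ j') (w : Fin ζ × Fin m → ℝ) :
    mean (fun ρ => (∑ a ∈ S, w a * tau i0 c j' a ρ) ^ 2) = ∑ a ∈ S, w a ^ 2 := by
  have e : ∀ ρ, (∑ a ∈ S, w a * tau i0 c j' a ρ) ^ 2 =
      ∑ a ∈ S, ∑ a' ∈ S, (w a * w a') * (tau i0 c j' a ρ * tau i0 c j' a' ρ) := by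
    intro ρ
    rw [sq, Finset.sum_mul_sum]
    refine Finset.sum_congr rfl fun a _ => Finset.sum_congr rfl fun a' _ => by ring
  simp only [e]
  rw [mean_sum]
  refine Finset.sum_congr rfl fun a ha => ?_
  rw [mean_sum, Finset.sum_eq_single a]
  · rw [mean_mul_left]
    simp only [tau_mul_self]
    rw [mean_const]; ring
  · intro a' _ hne
    rw [mean_mul_left, tau_orth hc h0 (hS a ha) hne.symm, mul_zero]
  · intro h; exact absurd ha h

variable (i0 c)

/-- the star vector -/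
noncomputable def xv (ρ : Fin n → Fin ζ → Bool) : Fin n → ℝ :=
  fun i => (if i = i0 then 1 else 0) -
    ∑ a : Fin ζ × Fin m, (if i = c a then sgn (ρ i0 a.1) * sgn (ρ (c a) a.1) / m else 0)

variable {i0 c}

lemma xv_root (h0 : ∀ a, c a ≠ i0) (ρ : Fin n → Fin ζ → Bool) : xv i0 c ρ i0 = 1 := by
  unfold xv
  rw [if_pos rfl, Finset.sum_eq_zero, sub_zero]
  intro a _
  rw [if_neg (fun h => h0 a h.symm)]

lemma xv_zero {ρ : Fin n → Fin ζ → Bool} {i : Fin n} (h1 : i ≠ i0) (h2 : ∀ a, i ≠ c a) :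
    xv i0 c ρ i = 0 := by
  unfold xv
  rw [if_neg h1, Finset.sum_eq_zero, sub_zero]
  intro a _
  rw [if_neg (h2 a)]

variable {b : ℕ}

/-- the coordinates of `Ωᵀ x` for the star vector -/
lemma mulVec_xv (hm : 1 ≤ m) {s : Fin n → Fin ζ → Fin b}
    (hs : ∀ a : Fin ζ × Fin m, s (c a) a.1 = s i0 a.1) (ρ : Fin n → Fin ζ → Bool)
    (q : Fin ζ × Fin b) :
    ((Om (s, ρ)).transpose.mulVec (xv i0 c ρ)) q =
      ∑ a ∈ univ.filter (fun a : Fin ζ × Fin m => a.1 ≠ q.1),
        (-((if s (c a) q.1 = q.2 then 1 else 0) / (m * Real.sqrt ζ))) * tau i0 c q.1 a ρ := by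
  obtain ⟨j', β⟩ := q
  have hm0 : (m : ℝ) ≠ 0 := by
    have : (m : ℝ) ≥ 1 := by exact_mod_cast hm
    linarith
  unfold Matrix.mulVec dotProduct
  simp only [Matrix.transpose_apply]
  unfold xv
  simp only [mul_sub, Finset.sum_sub_distrib, Finset.mul_sum]
  rw [Finset.sum_comm]
  simp only [mul_ite, mul_zero, mul_one, Finset.sum_ite_eq', Finset.mem_univ, if_true]
  -- split the sum over the children
  rw [← Finset.sum_filter_add_sum_filter_not univ (fun a : Fin ζ × Fin m => a.1 ≠ j')]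
  have e2 : ∑ a ∈ univ.filter (fun a : Fin ζ × Fin m => ¬ a.1 ≠ j'),
      Om (s, ρ) (c a) (j', β) * (sgn (ρ i0 a.1) * sgn (ρ (c a) a.1) / m) =
      Om (s, ρ) i0 (j', β) := by
    have e3 : ∀ a ∈ univ.filter (fun a : Fin ζ × Fin m => ¬ a.1 ≠ j'),
        Om (s, ρ) (c a) (j', β) * (sgn (ρ i0 a.1) * sgn (ρ (c a) a.1) / m) =
        Om (s, ρ) i0 (j', β) / m := by
      intro a ha
      have ha' : a.1 = j' := by simpa using ha
      subst ha'
      unfold Om
      simp only [hs a]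
      split_ifs
      · have := sgn_mul_self (ρ (c a) a.1)
        calc _ = (sgn (ρ (c a) a.1) * sgn (ρ (c a) a.1)) * (sgn (ρ i0 a.1) / Real.sqrt ζ / m) := by
              ring
          _ = _ := by rw [this, one_mul]
      · ring
    rw [Finset.sum_congr rfl e3, Finset.sum_const, nsmul_eq_mul]
    have e4 : (univ.filter (fun a : Fin ζ × Fin m => ¬ a.1 ≠ j')).card = m := by
      have : univ.filter (fun a : Fin ζ × Fin m => ¬ a.1 ≠ j') = {j'} ×ˢ univ := by
        ext ⟨a1, a2⟩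
        simp only [Finset.mem_filter, Finset.mem_univ, true_and, not_not, Finset.mem_product,
          Finset.mem_singleton, and_true]
      rw [this, Finset.card_product, Finset.card_singleton, Finset.card_univ, Fintype.card_fin,
        one_mul]
    rw [e4]
    field_simp
  rw [e2]
  rw [add_comm, sub_add_cancel_left, ← Finset.sum_neg_distrib]
  refine Finset.sum_congr rfl fun a _ => ?_
  unfold Om tau
  simp only
  split_ifs
  · ring
  · ring

/-- the mean energy of the star vector -/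
lemma mean_energy (hm : 1 ≤ m) (hc : Function.Injective c)
    (h0 : ∀ a, c a ≠ i0) {s : Fin n → Fin ζ → Fin b}
    (hs : ∀ a : Fin ζ × Fin m, s (c a) a.1 = s i0 a.1) :
    mean (fun ρ => nsq ((Om (s, ρ)).transpose.mulVec (xv i0 c ρ))) ≤ ζ / m := by
  rcases Nat.eq_zero_or_pos ζ with hz | hz
  · subst hz
    unfold nsq
    simp [mean_const]
  have hm0 : (0 : ℝ) < m := by exact_mod_cast hm
  have hz0 : (0 : ℝ) < ζ := by exact_mod_cast hz
  have hsq : Real.sqrt ζ ^ 2 = ζ := Real.sq_sqrt hz0.le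
  unfold nsq
  rw [mean_sum]
  have e1 : ∀ q : Fin ζ × Fin b,
      mean (fun ρ => ((Om (s, ρ)).transpose.mulVec (xv i0 c ρ)) q ^ 2) ≤
      ∑ a : Fin ζ × Fin m, (if s (c a) q.1 = q.2 then 1 else 0) / (m ^ 2 * (ζ : ℝ)) := by
    intro q
    simp only [mulVec_xv hm hs]
    rw [tau_sq_sum hc h0 _ (fun a ha => (Finset.mem_filter.mp ha).2)]
    calc _ = ∑ a ∈ univ.filter (fun a : Fin ζ × Fin m => a.1 ≠ q.1),
          (if s (c a) q.1 = q.2 then 1 else 0) / (m ^ 2 * (ζ : ℝ)) := by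
            refine Finset.sum_congr rfl fun a _ => ?_
            rw [neg_sq, div_pow, mul_pow, hsq]
            split_ifs <;> norm_num
      _ ≤ _ := by
          refine Finset.sum_le_sum_of_subset_of_nonneg (Finset.filter_subset _ _) fun a _ _ => ?_
          split_ifs <;> positivity
  refine (Finset.sum_le_sum fun q _ => e1 q).trans ?_
  rw [Finset.sum_comm]
  have e2 : ∀ a : Fin ζ × Fin m, ∑ q : Fin ζ × Fin b,
      (if s (c a) q.1 = q.2 then (1 : ℝ) else 0) / (m ^ 2 * (ζ : ℝ)) = 1 / m ^ 2 := by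
    intro a
    rw [← Finset.sum_div, Fintype.sum_prod_type]
    simp only [Finset.sum_ite_eq, Finset.mem_univ, if_true, Finset.sum_const, Finset.card_univ,
      Fintype.card_fin, nsmul_eq_mul, mul_one]
    field_simp
  simp only [e2]
  rw [Finset.sum_const, Finset.card_univ, Fintype.card_prod, Fintype.card_fin, Fintype.card_fin,
    nsmul_eq_mul]
  push_cast
  apply le_of_eq
  field_simp

end

end Pool.Agent.V7H96.SS
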