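import Pool.Agent.V7H96.SS.Star

/-!
Choice of the constants.
-/

set_option autoImplicit false

namespace Pool.Agent.V7H96.SS

open Finset

/-- the coordinate subspace has dimension `r` -/
lemma finrank_coordSub {n r : ℕ} (h : r ≤ n) : Module.finrank ℝ (coordSub n r) = r := by
  let f : (Fin r → ℝ) →ₗ[ℝ] (Fin n → ℝ) :=
    { toFun := fun x i => if hi : i.val < r then x ⟨i.val, hi⟩ else 0
      map_add' := by
        intro x y; funext i
        by_cases hi : i.val < r <;> simp [hi]
      map_smul' := by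
        intro c x; funext i
        by_cases hi : i.val < r <;> simp [hi] }
  have hinj : Function.Injective f := by
    intro x y hxy
    funext i
    have h1 := congrFun hxy ⟨i.val, lt_of_lt_of_le i.2 h⟩
    simpa [f] using h1
  have hrange : LinearMap.range f = coordSub n r := by
    ext y
    constructor
    · rintro ⟨x, rfl⟩ i hi
      simp [f, not_lt.mpr hi]
    · intro hy
      refine ⟨fun i => y ⟨i.val, lt_of_lt_of_le i.2 h⟩, ?_⟩
      funext i
      by_cases hi : i.val < r
      · simp [f, hi]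
      · simp only [f, LinearMap.coe_mk, AddHom.coe_mk, hi, dite_false]
        exact (hy i (not_lt.mp hi)).symm
  rw [← hrange, LinearMap.finrank_range_of_inj hinj, Module.finrank_fin_fun]

open scoped Classical in
/-- fewer columns than the dimension: never injective -/
lemma inj_prob_small {n ζ b r : ℕ} (h : r ≤ n) (hk : ζ * b < r) {α : ℝ} (hα : 0 < α) :
    mean (fun ω : Outcome n ζ b =>
      if ∀ x ∈ coordSub n r, α * nsq x ≤ nsq ((Om ω).transpose.mulVec x) then (1 : ℝ) else 0) ≤
      0 := by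
  have h0 : ∀ ω : Outcome n ζ b,
      ¬ ∀ x ∈ coordSub n r, α * nsq x ≤ nsq ((Om ω).transpose.mulVec x) := by
    intro ω hω
    let g : coordSub n r →ₗ[ℝ] (Fin ζ × Fin b → ℝ) :=
      (Matrix.mulVecLin (Om ω).transpose).comp (coordSub n r).subtype
    have hlt : Module.finrank ℝ (Fin ζ × Fin b → ℝ) < Module.finrank ℝ (coordSub n r) := by
      rw [finrank_coordSub h, Module.finrank_fintype_fun_eq_card, Fintype.card_prod,
        Fintype.card_fin, Fintype.card_fin]
      exact hk
    have hker := LinearMap.ker_ne_bot_of_finrank_lt (f := g) hlt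
    obtain ⟨x, hx, hx0⟩ := (Submodule.ne_bot_iff _).mp hker
    have h1 := hω x.1 x.2
    have h2 : (Om ω).transpose.mulVec x.1 = 0 := by
      have h7 := LinearMap.mem_ker.mp hx
      rw [Matrix.mulVec_transpose]
      simpa [g] using h7
    rw [h2] at h1
    have h3 : nsq (0 : Fin ζ × Fin b → ℝ) = 0 := by simp [nsq]
    rw [h3] at h1
    have h4 : x.1 ≠ 0 := fun h' => hx0 (Subtype.ext h')
    obtain ⟨i, hi⟩ := Function.ne_iff.mp h4
    have h5 := sq_le_nsq x.1 i
    have h6 : 0 < x.1 i ^ 2 := by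
      have : x.1 i ≠ 0 := hi
      positivity
    nlinarith
  refine le_of_eq ?_
  unfold mean
  rw [Finset.sum_eq_zero, zero_div]
  intro ω _
  rw [if_neg (h0 ω)]

open scoped Classical in
/-- The main estimate for a fixed sparsity. -/
theorem core (ζ : ℕ) (hζ : 1 ≤ ζ) (C α ε : ℝ) (hα : 0 < α) (hε : 0 < ε) :
    ∃ r₀ : ℕ, ∀ r n b : ℕ, r₀ ≤ r → r ≤ n → 1 ≤ b → (b : ℝ) * ζ ≤ C * r →
      mean (fun ω : Outcome n ζ b =>
        if ∀ x ∈ coordSub n r, α * nsq x ≤ nsq ((Om ω).transpose.mulVec x) then (1 : ℝ) else 0) <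
        ε := by
  have hζ0 : (0 : ℝ) < ζ := by exact_mod_cast hζ
  -- the number of children in a block
  obtain ⟨m, hm⟩ := exists_nat_gt ((ζ : ℝ) / α * (4 / ε))
  have hm0 : (0 : ℝ) < m := lt_of_le_of_lt (by positivity) hm
  have hm1 : 1 ≤ m := by exact_mod_cast hm0
  have hE1 : (ζ : ℝ) / m / α ≤ ε / 4 := by
    rw [div_div, div_le_iff₀ (by positivity)]
    have h1 : (ζ : ℝ) / α * (4 / ε) = 4 * ζ / (α * ε) := by field_simp
    rw [h1, div_lt_iff₀ (by positivity)] at hm
    nlinarith
  set C' : ℝ := max C 1 with hC'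
  have hC1 : 1 ≤ C' := le_max_right _ _
  set M : ℕ := ζ * m + 1 with hM
  have hM0 : (0 : ℝ) < M := by rw [hM]; positivity
  set lam : ℝ := 1 / (2 * M * C') with hlam
  have hlam0 : 0 < lam := by rw [hlam]; positivity
  set p : ℝ := 1 - Real.exp (-lam) with hp
  have hp0 : 0 < p := by
    have : Real.exp (-lam) < 1 := by
      rw [Real.exp_lt_one_iff]; linarith
    linarith
  have hp1 : p ≤ 1 := by
    have := Real.exp_pos (-lam)
    linarith
  set c : ℝ := ((p / 2) ^ m) ^ ζ with hc
  have hc0 : 0 < c := by rw [hc]; positivity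
  have hc1 : c ≤ 1 := by
    rw [hc]
    exact pow_le_one₀ (by positivity) (pow_le_one₀ (by positivity) (by linarith))
  obtain ⟨L0, hL0⟩ := exists_pow_lt_of_lt_one (show (0 : ℝ) < ε / 4 by positivity)
    (show 1 - c < 1 by linarith)
  obtain ⟨r1, hr1⟩ := exists_nat_gt (ζ * (ζ * (m * (4 / ((p / 2) ^ m * p ^ 2)))) * (4 / ε))
  refine ⟨max r1 (max (2 * M) (M * L0)), ?_⟩
  intro r n b hr hrn hb hbr
  have hb0 : (0 : ℝ) < b := by exact_mod_cast hb
  have hrr1 : r1 ≤ r := (le_max_left _ _).trans hr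
  have hr2 : 2 * M ≤ r := ((le_max_left _ _).trans (le_max_right _ _)).trans hr
  have hr3 : M * L0 ≤ r := ((le_max_right _ _).trans (le_max_right _ _)).trans hr
  have hM1 : 1 ≤ M := Nat.succ_le_succ (Nat.zero_le _)
  have hr0 : (0 : ℝ) < r := by
    have : 0 < r := by omega
    exact_mod_cast this
  rcases Nat.lt_or_ge (ζ * b) r with hk | hk
  · exact lt_of_le_of_lt (inj_prob_small hrn hk hα) hε
  have : NeZero b := ⟨by omega⟩
  set L : ℕ := r / M with hL
  have hML : M * L ≤ r := Nat.mul_div_le r M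
  have hLL0 : L0 ≤ L := by
    rw [hL, Nat.le_div_iff_mul_le (by omega)]
    rw [mul_comm]; exact hr3
  have hLr : (r : ℝ) / (2 * M) ≤ L := by
    have h1 : (r : ℝ) < M * (L + 1) := by
      have := Nat.lt_mul_div_succ r (show 0 < M by omega)
      rw [← hL] at this
      exact_mod_cast this
    have h2 : (2 * M : ℝ) ≤ r := by exact_mod_cast hr2
    rw [div_le_iff₀ (by positivity)]
    nlinarith
  -- the classes
  have hcard : Fintype.card (Option (Fin ζ × Fin m) × Fin L) ≤ Fintype.card (Fin r) := by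
    rw [Fintype.card_prod, Fintype.card_option, Fintype.card_prod, Fintype.card_fin,
      Fintype.card_fin, Fintype.card_fin, Fintype.card_fin]
    exact hML
  obtain ⟨⟨e, he⟩⟩ := Function.Embedding.nonempty_of_card_le hcard
  let φ : Option (Fin ζ × Fin m) → Fin L → Fin n := fun o l => Fin.castLE hrn (e (o, l))
  have hφ : ∀ o o' l l', φ o l = φ o' l' → o = o' ∧ l = l' := by
    intro o o' l l' h
    have h1 : e (o, l) = e (o', l') := Fin.castLE_injective hrn h
    have h2 := he h1
    exact ⟨congrArg Prod.fst h2, congrArg Prod.snd h2⟩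
  have hφr : ∀ o l, (φ o l).val < r := fun o l => (e (o, l)).2
  have hb1 : (1 : ℝ) ≤ b := by exact_mod_cast hb
  have hlamL : lam ≤ L / b := by
    rw [le_div_iff₀ hb0]
    have h1 : (b : ℝ) ≤ C' * r := by
      have h2 : C * r ≤ C' * r := by
        gcongr
        exact le_max_left _ _
      have h3 : (b : ℝ) ≤ b * ζ := by
        have : (1 : ℝ) ≤ ζ := by exact_mod_cast hζ
        nlinarith
      linarith
    calc lam * b ≤ lam * (C' * r) := by gcongr
      _ = r / (2 * M) := by rw [hlam]; field_simp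
      _ ≤ L := hLr
  have hpp : p ≤ 1 - (1 - 1 / (b : ℝ)) ^ L := by
    have h1 : (1 - 1 / (b : ℝ)) ^ L ≤ Real.exp (-lam) := by
      calc (1 - 1 / (b : ℝ)) ^ L ≤ (Real.exp (-(1 / (b : ℝ)))) ^ L := by
            apply pow_le_pow_left₀
            · rw [sub_nonneg, div_le_one hb0]; exact hb1
            · exact Real.one_sub_le_exp_neg _
        _ = Real.exp (-(L / b)) := by
            rw [← Real.exp_nat_mul]
            congr 1
            ring
        _ ≤ Real.exp (-lam) := by
            rw [Real.exp_le_exp]; linarith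
    linarith
  refine lt_of_le_of_lt (inj_prob (n := n) (b := b) (r := r) hm1 hφ hφr hp0 hp1 hpp hα) ?_
  have hE2 : (1 - ((p / 2) ^ m) ^ ζ) ^ L ≤ ε / 4 := by
    rw [← hc]
    calc (1 - c) ^ L ≤ (1 - c) ^ L0 := pow_le_pow_of_le_one (by linarith) (by linarith) hLL0
      _ ≤ ε / 4 := hL0.le
  have hE3 : (ζ : ℝ) * (m * (4 / (b * (p / 2) ^ m * p ^ 2))) ≤ ε / 4 := by
    have h1 : (r : ℝ) ≤ ζ * b := by exact_mod_cast hk
    set D : ℝ := (p / 2) ^ m * p ^ 2 with hD
    have hD0 : 0 < D := by rw [hD]; positivity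
    have h2 : ζ * (ζ * (m * (4 / D))) * (4 / ε) < r :=
      lt_of_lt_of_le hr1 (by exact_mod_cast hrr1)
    have e1 : (ζ : ℝ) * (m * (4 / (b * (p / 2) ^ m * p ^ 2))) = ζ * (m * 4) / (b * D) := by
      rw [hD]; field_simp
    have e2 : ζ * (ζ * (m * (4 / D))) * (4 / ε) = ζ * (ζ * (m * 4)) * 4 / (D * ε) := by
      field_simp
    rw [e1, div_le_iff₀ (by positivity)]
    rw [e2, div_lt_iff₀ (by positivity)] at h2
    have h3 : (r : ℝ) * (D * ε) ≤ ζ * b * (D * ε) := by gcongr
    have h4 : ζ * (ζ * (m * 4) * 4) < ζ * (b * D * ε) := by nlinarith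
    have h5 := lt_of_mul_lt_mul_left h4 hζ0.le
    linarith
  linarith

end Pool.Agent.V7H96.SS
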