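import Mathlib

/-!
Means over finite sets and resampling of coordinates.
-/

set_option autoImplicit false

namespace Pool.Agent.V7H96.SS

open Finset

/-- the mean of `f` under the uniform probability measure on the finite type `α` -/
noncomputable def mean {α : Type} [Fintype α] (f : α → ℝ) : ℝ := (∑ a, f a) / Fintype.card α

section
variable {α β : Type} [Fintype α] [Fintype β]

lemma mean_mono {f g : α → ℝ} (h : ∀ a, f a ≤ g a) : mean f ≤ mean g := by
  unfold mean
  gcongr with a _
  exact h a

lemma mean_nonneg {f : α → ℝ} (h : ∀ a, 0 ≤ f a) : 0 ≤ mean f := by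
  unfold mean
  exact div_nonneg (Finset.sum_nonneg fun a _ => h a) (Nat.cast_nonneg _)

lemma mean_add (f g : α → ℝ) : mean (fun a => f a + g a) = mean f + mean g := by
  unfold mean
  rw [Finset.sum_add_distrib, add_div]

lemma mean_sub (f g : α → ℝ) : mean (fun a => f a - g a) = mean f - mean g := by
  unfold mean
  rw [Finset.sum_sub_distrib, sub_div]

lemma mean_mul_left (c : ℝ) (f : α → ℝ) : mean (fun a => c * f a) = c * mean f := by
  unfold mean
  rw [← Finset.mul_sum, mul_div_assoc]

lemma mean_const [Nonempty α] (c : ℝ) : mean (fun _ : α => c) = c := by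
  unfold mean
  rw [Finset.sum_const, Finset.card_univ, nsmul_eq_mul]
  have : (Fintype.card α : ℝ) ≠ 0 := by exact_mod_cast Fintype.card_ne_zero
  field_simp

lemma mean_sum {ι : Type} (s : Finset ι) (f : ι → α → ℝ) :
    mean (fun a => ∑ i ∈ s, f i a) = ∑ i ∈ s, mean (f i) := by
  unfold mean
  rw [Finset.sum_comm, Finset.sum_div]

lemma mean_prod (f : α × β → ℝ) : mean f = mean (fun a => mean (fun b => f (a, b))) := by
  unfold mean
  rw [Fintype.sum_prod_type, ← Finset.sum_div, Fintype.card_prod, div_div, Nat.cast_mul,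
    mul_comm (Fintype.card α : ℝ)]

lemma mean_equiv (e : α ≃ β) (f : β → ℝ) : mean (fun a => f (e a)) = mean f := by
  unfold mean
  rw [Equiv.sum_comp e f, Fintype.card_congr e]

/-- Markov's inequality -/
lemma mean_markov {f : α → ℝ} (h : ∀ a, 0 ≤ f a) {t : ℝ} (ht : 0 < t) [DecidablePred fun a => t ≤ f a] :
    mean (fun a => if t ≤ f a then (1 : ℝ) else 0) ≤ mean f / t := by
  rw [div_eq_inv_mul, ← mean_mul_left]
  refine mean_mono fun a => ?_
  split_ifs with h1
  · rw [← div_eq_inv_mul, le_div_iff₀ ht, one_mul]; exact h1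
  · exact mul_nonneg (inv_nonneg.mpr ht.le) (h a)

end

section
variable {I W : Type} [DecidableEq I] [Fintype I] [Fintype W]

/-- `s` with the coordinates in `S` replaced by those of `u` -/
def ov (S : Finset I) (s u : I → W) : I → W := fun i => if i ∈ S then u i else s i

lemma ov_mem {S : Finset I} {s u : I → W} {i : I} (h : i ∈ S) : ov S s u i = u i := if_pos h
lemma ov_not {S : Finset I} {s u : I → W} {i : I} (h : i ∉ S) : ov S s u i = s i := if_neg h

/-- the exchange of the coordinates in `S` -/
def ovE (S : Finset I) : (I → W) × (I → W) ≃ (I → W) × (I → W) where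
  toFun p := (ov S p.1 p.2, ov S p.2 p.1)
  invFun p := (ov S p.1 p.2, ov S p.2 p.1)
  left_inv p := by
    ext i <;> by_cases h : i ∈ S <;> simp [ov, h]
  right_inv p := by
    ext i <;> by_cases h : i ∈ S <;> simp [ov, h]

/-- resampling some coordinates does not change the law -/
lemma mean_resample [Nonempty W] (S : Finset I) (f : (I → W) → ℝ) :
    mean f = mean (fun s => mean (fun u => f (ov S s u))) := by
  have h1 : mean (fun p : (I → W) × (I → W) => f (ovE S p).1) =
      mean (fun p : (I → W) × (I → W) => f p.1) := mean_equiv (ovE S) (fun p => f p.1)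
  rw [mean_prod, mean_prod] at h1
  simp only [mean_const] at h1
  rw [← h1]
  rfl

/-- product formula -/
lemma mean_pi (g : I → W → ℝ) : mean (fun u : I → W => ∏ i, g i (u i)) = ∏ i, mean (g i) := by
  unfold mean
  rw [Finset.prod_div_distrib, Finset.prod_univ_sum, Fintype.piFinset_univ, Fintype.card_pi,
    Nat.cast_prod]

end

end Pool.Agent.V7H96.SS
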