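import Pool.Agent.V7H96.SS.Mean

/-!
Existence of a star, with high probability.
-/

set_option autoImplicit false

namespace Pool.Agent.V7H96.SS

open Finset

section
variable {ζ b : ℕ}

/-- mean of a function of one coordinate -/
lemma mean_coord {ι : Type} [Fintype ι] [DecidableEq ι] {B : Type} [Fintype B] [Nonempty B] (j : ι)
    (h : B → ℝ) : mean (fun v : ι → B => h (v j)) = mean h := by
  have h1 := mean_pi (I := ι) (W := B) (fun k => if k = j then h else fun _ => 1)
  have e1 : ∀ u : ι → B, (∏ i, (if i = j then h else fun _ => 1) (u i)) = h (u j) := by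
    intro u
    rw [Finset.prod_eq_single j]
    · simp
    · intro k _ hk; simp [hk]
    · simp
  simp only [e1] at h1
  rw [h1, Finset.prod_eq_single j]
  · simp
  · intro k _ hk
    simp only [hk, if_false]
    exact mean_const 1
  · simp

/-- mean of a product over rows in the range of an injection -/
lemma mean_rows {n L : ℕ} {W : Type} [Fintype W] [Nonempty W] (φ : Fin L → Fin n)
    (hφ : Function.Injective φ) (g : W → ℝ) :
    mean (fun u : Fin n → W => ∏ l, g (u (φ l))) = mean g ^ L := by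
  classical
  have h1 := mean_pi (I := Fin n) (W := W)
    (fun i => if i ∈ univ.image φ then g else fun _ => 1)
  have e1 : ∀ u : Fin n → W, (∏ i, (if i ∈ univ.image φ then g else fun _ => 1) (u i)) =
      ∏ l, g (u (φ l)) := by
    intro u
    rw [← Finset.prod_image (f := fun i => g (u i)) (s := univ) (g := φ) (fun a _ b _ h => hφ h)]
    rw [← Finset.prod_subset (Finset.subset_univ (univ.image φ))]
    · refine Finset.prod_congr rfl fun i hi => by rw [if_pos hi]
    · intro i _ hi; rw [if_neg hi]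
  simp only [e1] at h1
  rw [h1]
  rw [← Finset.prod_subset (Finset.subset_univ (univ.image φ))]
  · rw [Finset.prod_congr rfl (g := fun _ => mean g) (fun i hi => by rw [if_pos hi]),
      Finset.prod_const, Finset.card_image_of_injective _ hφ, Finset.card_univ, Fintype.card_fin]
  · intro i _ hi; rw [if_neg hi]; exact mean_const 1

lemma mean_ne (hb : 1 ≤ b) (β : Fin b) :
    mean (fun v : Fin b => if v ≠ β then (1 : ℝ) else 0) = 1 - 1 / b := by
  have hb0 : (b : ℝ) ≠ 0 := by
    have : (1 : ℝ) ≤ b := by exact_mod_cast hb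
    linarith
  unfold mean
  rw [Finset.sum_boole, Fintype.card_fin]
  have : (univ.filter (fun v : Fin b => v ≠ β)).card = b - 1 := by
    rw [Finset.filter_ne', Finset.card_erase_of_mem (Finset.mem_univ _), Finset.card_univ,
      Fintype.card_fin]
  rw [this, Nat.cast_sub hb]
  field_simp
  simp

lemma mean_ne_ne (hb : 1 ≤ b) {β β' : Fin b} (h : β ≠ β') :
    mean (fun v : Fin b => if v ≠ β ∧ v ≠ β' then (1 : ℝ) else 0) ≤ (1 - 1 / b) ^ 2 := by
  have hb1 : (1 : ℝ) ≤ b := by exact_mod_cast hb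
  have hb0 : (b : ℝ) ≠ 0 := by linarith
  have hb2 : 2 ≤ b := by
    have := β.2
    have := β'.2
    by_contra hcon
    have hb3 : b = 1 := by omega
    subst hb3
    exact h (Subsingleton.elim _ _)
  unfold mean
  rw [Finset.sum_boole, Fintype.card_fin]
  have : (univ.filter (fun v : Fin b => v ≠ β ∧ v ≠ β')).card = b - 2 := by
    have e : univ.filter (fun v : Fin b => v ≠ β ∧ v ≠ β') = (univ.erase β).erase β' := by
      ext v; simp [and_comm]
    rw [e, Finset.card_erase_of_mem, Finset.card_erase_of_mem (Finset.mem_univ _),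
      Finset.card_univ, Fintype.card_fin]
    · omega
    · simp [h.symm]
  rw [this, Nat.cast_sub hb2]
  have e : (1 - 1 / (b : ℝ)) ^ 2 = ((b : ℝ) - 2) / b + 1 / b ^ 2 := by field_simp; ring
  rw [e]
  push_cast
  have : (0 : ℝ) ≤ 1 / (b : ℝ) ^ 2 := by positivity
  linarith

end

section
variable {n ζ b L : ℕ}

/-- the bins of the block `j` which are not hit by the rows `φ l` -/
def missed (A : Finset (Fin b)) (j : Fin ζ) (φ : Fin L → Fin n) (u : Fin n → Fin ζ → Fin b) :
    Finset (Fin b) := A.filter (fun β => ∀ l, u (φ l) j ≠ β)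

lemma ind_prod (p : Fin L → Prop) [DecidablePred p] [Decidable (∀ l, p l)] :
    (if ∀ l, p l then (1 : ℝ) else 0) = ∏ l, if p l then (1 : ℝ) else 0 := by
  by_cases h : ∀ l, p l
  · rw [if_pos h, Finset.prod_eq_one]
    intro l _; rw [if_pos (h l)]
  · rw [if_neg h]
    push Not at h
    obtain ⟨l, hl⟩ := h
    rw [Finset.prod_eq_zero (Finset.mem_univ l)]
    rw [if_neg hl]

lemma mean_missed [NeZero b] (hb : 1 ≤ b) (A : Finset (Fin b)) (j : Fin ζ) (φ : Fin L → Fin n)
    (hφ : Function.Injective φ) :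
    mean (fun u : Fin n → Fin ζ → Fin b => ((missed A j φ u).card : ℝ)) =
      A.card * (1 - 1 / b) ^ L := by
  have e1 : ∀ u : Fin n → Fin ζ → Fin b, ((missed A j φ u).card : ℝ) =
      ∑ β ∈ A, ∏ l, (if u (φ l) j ≠ β then (1 : ℝ) else 0) := by
    intro u
    unfold missed
    rw [← Finset.sum_boole]
    exact Finset.sum_congr rfl fun β _ => ind_prod _
  simp only [e1]
  rw [mean_sum]
  have e2 : ∀ β ∈ A, mean (fun u : Fin n → Fin ζ → Fin b =>
      ∏ l, (if u (φ l) j ≠ β then (1 : ℝ) else 0)) = (1 - 1 / b) ^ L := by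
    intro β _
    rw [mean_rows φ hφ (fun v : Fin ζ → Fin b => if v j ≠ β then (1 : ℝ) else 0),
      mean_coord j (fun v : Fin b => if v ≠ β then (1 : ℝ) else 0), mean_ne hb]
  rw [Finset.sum_congr rfl e2, Finset.sum_const, nsmul_eq_mul]

lemma mean_missed_sq [NeZero b] (hb : 1 ≤ b) (A : Finset (Fin b)) (j : Fin ζ) (φ : Fin L → Fin n)
    (hφ : Function.Injective φ) :
    mean (fun u : Fin n → Fin ζ → Fin b => ((missed A j φ u).card : ℝ) ^ 2) ≤
      A.card + (A.card * (1 - 1 / b) ^ L) ^ 2 := by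
  have hb1 : (1 : ℝ) ≤ b := by exact_mod_cast hb
  have hq0 : (0 : ℝ) ≤ 1 - 1 / b := by
    rw [sub_nonneg, div_le_one (by linarith)]; exact hb1
  have hq1 : (1 : ℝ) - 1 / b ≤ 1 := by
    have : (0 : ℝ) ≤ 1 / b := by positivity
    linarith
  have e1 : ∀ u : Fin n → Fin ζ → Fin b, ((missed A j φ u).card : ℝ) ^ 2 =
      ∑ β ∈ A, ∑ β' ∈ A, ∏ l, (if u (φ l) j ≠ β ∧ u (φ l) j ≠ β' then (1 : ℝ) else 0) := by
    intro u
    unfold missed
    rw [← Finset.sum_boole, sq, Finset.sum_mul_sum]
    refine Finset.sum_congr rfl fun β _ => Finset.sum_congr rfl fun β' _ => ?_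
    rw [← ind_prod, ite_zero_mul_ite_zero, mul_one]
    by_cases h : (∀ l, u (φ l) j ≠ β) ∧ (∀ l, u (φ l) j ≠ β')
    · rw [if_pos h, if_pos (fun l => ⟨h.1 l, h.2 l⟩)]
    · rw [if_neg h, if_neg (fun h' => h ⟨fun l => (h' l).1, fun l => (h' l).2⟩)]
  simp only [e1]
  rw [mean_sum]
  have e2 : ∀ β ∈ A, mean (fun u : Fin n → Fin ζ → Fin b => ∑ β' ∈ A,
      ∏ l, (if u (φ l) j ≠ β ∧ u (φ l) j ≠ β' then (1 : ℝ) else 0)) ≤
      1 + A.card * ((1 - 1 / b) ^ L) ^ 2 := by
    intro β hβ
    rw [mean_sum]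
    have e3 : ∀ β' ∈ A, mean (fun u : Fin n → Fin ζ → Fin b =>
        ∏ l, (if u (φ l) j ≠ β ∧ u (φ l) j ≠ β' then (1 : ℝ) else 0)) ≤
        (if β' = β then 1 else 0) + ((1 - 1 / b) ^ L) ^ 2 := by
      intro β' _
      rw [mean_rows φ hφ (fun v : Fin ζ → Fin b => if v j ≠ β ∧ v j ≠ β' then (1 : ℝ) else 0),
        mean_coord j (fun v : Fin b => if v ≠ β ∧ v ≠ β' then (1 : ℝ) else 0)]
      have hnn : 0 ≤ mean (fun v : Fin b => if v ≠ β ∧ v ≠ β' then (1 : ℝ) else 0) :=
        mean_nonneg fun v => by split_ifs <;> norm_num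
      by_cases h : β' = β
      · rw [if_pos h]
        have h1 : mean (fun v : Fin b => if v ≠ β ∧ v ≠ β' then (1 : ℝ) else 0) ≤ 1 := by
          calc _ ≤ mean (fun _ : Fin b => (1 : ℝ)) := mean_mono fun v => by split_ifs <;> norm_num
            _ = 1 := mean_const 1
        have h2 := pow_le_one₀ (n := L) hnn h1
        have h3 : (0 : ℝ) ≤ ((1 - 1 / (b : ℝ)) ^ L) ^ 2 := by positivity
        linarith
      · rw [if_neg h, zero_add, ← pow_mul, mul_comm L 2, pow_mul]
        exact pow_le_pow_left₀ hnn (mean_ne_ne hb (fun h' => h h'.symm)) L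
    refine (Finset.sum_le_sum e3).trans ?_
    rw [Finset.sum_add_distrib, Finset.sum_ite_eq' A β, if_pos hβ, Finset.sum_const, nsmul_eq_mul]
  refine (Finset.sum_le_sum e2).trans ?_
  rw [Finset.sum_const, nsmul_eq_mul]
  apply le_of_eq
  ring

/-- Chebyshev: with probability `≥ 1 - 4 / (|A| p²)` at least `|A| p / 2` bins of `A` are hit,
where `p = 1 - (1 - 1/b)^L`. -/
lemma hit_many [NeZero b] (hb : 1 ≤ b) (A : Finset (Fin b)) (j : Fin ζ) (φ : Fin L → Fin n)
    (hφ : Function.Injective φ) (hA : 0 < A.card) {p : ℝ} (hp0 : 0 < p)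
    (hp : p ≤ 1 - (1 - 1 / (b : ℝ)) ^ L) :
    mean (fun u : Fin n → Fin ζ → Fin b =>
      if (((A.filter (fun β => ∃ l, u (φ l) j = β)).card : ℝ) < A.card * p / 2) then (1 : ℝ)
      else 0) ≤ 4 / (A.card * p ^ 2) := by
  set a : ℝ := (A.card : ℝ) with ha
  have ha0 : 0 < a := by rw [ha]; exact_mod_cast hA
  set q : ℝ := (1 - 1 / (b : ℝ)) ^ L with hq
  have ht : 0 < (a * p / 2) ^ 2 := by positivity
  have hsplit : ∀ u : Fin n → Fin ζ → Fin b,
      ((A.filter (fun β => ∃ l, u (φ l) j = β)).card : ℝ) = a - (missed A j φ u).card := by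
    intro u
    have h1 : (A.filter (fun β => ∃ l, u (φ l) j = β)).card + (missed A j φ u).card = A.card := by
      unfold missed
      have h2 := Finset.card_filter_add_card_filter_not (s := A) (fun β => ∃ l, u (φ l) j = β)
      rw [← h2]
      congr 2
      ext β
      simp
    rw [ha, ← h1]; push_cast; ring
  have h1 : ∀ u : Fin n → Fin ζ → Fin b,
      (if (((A.filter (fun β => ∃ l, u (φ l) j = β)).card : ℝ) < a * p / 2) then (1 : ℝ)
      else 0) ≤ ((a * p / 2) ^ 2)⁻¹ * (((missed A j φ u).card : ℝ) ^ 2 -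
        (2 * (a * q)) * (missed A j φ u).card + (a * q) ^ 2) := by
    intro u
    rw [hsplit u]
    have e : ((missed A j φ u).card : ℝ) ^ 2 -
        (2 * (a * q)) * (missed A j φ u).card + (a * q) ^ 2 =
        ((missed A j φ u).card - a * q) ^ 2 := by ring
    rw [e]
    split_ifs with h
    · rw [← div_eq_inv_mul, le_div_iff₀ ht, one_mul]
      apply pow_le_pow_left₀ (by positivity)
      have h3 : a * p ≤ a * (1 - q) := mul_le_mul_of_nonneg_left hp ha0.le
      nlinarith
    · positivity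
  refine (mean_mono h1).trans ?_
  rw [mean_mul_left, mean_add, mean_sub, mean_mul_left, mean_const, mean_missed hb A j φ hφ]
  have h2 := mean_missed_sq hb A j φ hφ
  rw [← hq, ← ha] at h2 ⊢
  rw [← div_eq_inv_mul, div_le_div_iff₀ ht (by positivity)]
  have h3 : mean (fun u : Fin n → Fin ζ → Fin b => ((missed A j φ u).card : ℝ) ^ 2) -
      2 * (a * q) * (a * q) + (a * q) ^ 2 ≤ a := by nlinarith
  calc _ ≤ a * (a * p ^ 2) := by gcongr
    _ = 4 * (a * p / 2) ^ 2 := by ring

end

end Pool.Agent.V7H96.SS
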