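import Pool.Agent.V7H96.SS.Occ
import Pool.Agent.V7H96.SS.Energy

/-!
Existence of a star, with high probability.
-/

set_option autoImplicit false

namespace Pool.Agent.V7H96.SS

open Finset

section
variable {n ζ b m L : ℕ}

/-- the bins of the block `j` which are hit by the children classes `(j, t)`, `t < k` -/
def Acc (φ : Option (Fin ζ × Fin m) → Fin L → Fin n) (j : Fin ζ) (k : ℕ)
    (s : Fin n → Fin ζ → Fin b) : Finset (Fin b) :=
  univ.filter (fun β => ∀ t : Fin m, t.val < k → ∃ l, s (φ (some (j, t)) l) j = β)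

/-- there is a star -/
def Good (φ : Option (Fin ζ × Fin m) → Fin L → Fin n) (s : Fin n → Fin ζ → Fin b) : Prop :=
  ∃ l0, ∀ a : Fin ζ × Fin m, ∃ l, s (φ (some a) l) a.1 = s (φ none l0) a.1

variable {φ : Option (Fin ζ × Fin m) → Fin L → Fin n}

lemma Acc_zero (j : Fin ζ) (s : Fin n → Fin ζ → Fin b) : Acc φ j 0 s = univ := by
  unfold Acc
  rw [Finset.filter_eq_self]
  intro β _ t ht
  exact absurd ht (Nat.not_lt_zero _)

lemma Acc_ov (hφ : ∀ o o' l l', φ o l = φ o' l' → o = o' ∧ l = l') (j : Fin ζ) (k : Fin m)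
    (s u : Fin n → Fin ζ → Fin b) :
    Acc φ j (k.val + 1) (ov (univ.image (φ (some (j, k)))) s u) =
      (Acc φ j k.val s).filter (fun β => ∃ l, u (φ (some (j, k)) l) j = β) := by
  have h1 : ∀ l, ov (univ.image (φ (some (j, k)))) s u (φ (some (j, k)) l) =
      u (φ (some (j, k)) l) := fun l =>
    ov_mem (Finset.mem_image_of_mem _ (Finset.mem_univ l))
  have h2 : ∀ t : Fin m, t ≠ k → ∀ l, ov (univ.image (φ (some (j, k)))) s u
      (φ (some (j, t)) l) = s (φ (some (j, t)) l) := by
    intro t ht l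
    apply ov_not
    intro h
    obtain ⟨l', _, hl'⟩ := Finset.mem_image.mp h
    have := (hφ _ _ _ _ hl').1
    simp only [Option.some.injEq, Prod.mk.injEq, true_and] at this
    exact ht this.symm
  ext β
  unfold Acc
  simp only [Finset.mem_filter, Finset.mem_univ, true_and]
  constructor
  · intro h
    refine ⟨fun t ht => ?_, ?_⟩
    · obtain ⟨l, hl⟩ := h t (Nat.lt_succ_of_lt ht)
      rw [h2 t (fun e => by rw [e] at ht; exact lt_irrefl _ ht)] at hl
      exact ⟨l, hl⟩
    · obtain ⟨l, hl⟩ := h k (Nat.lt_succ_self _)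
      rw [h1] at hl
      exact ⟨l, hl⟩
  · rintro ⟨h, l, hl⟩ t ht
    by_cases e : t = k
    · subst e
      exact ⟨l, by rw [h1]; exact hl⟩
    · have : t.val < k.val := by
        have : t.val ≠ k.val := fun h' => e (Fin.ext h')
        omega
      obtain ⟨l', hl'⟩ := h t this
      exact ⟨l', by rw [h2 t e]; exact hl'⟩

lemma ind_le_one (q : Prop) [Decidable q] : (if q then (1 : ℝ) else 0) ≤ 1 := by
  split_ifs <;> norm_num
lemma ind_nonneg (q : Prop) [Decidable q] : 0 ≤ (if q then (1 : ℝ) else 0) := by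
  split_ifs <;> norm_num

/-- the accumulated sets are large -/
lemma Acc_large [NeZero b] (hφ : ∀ o o' l l', φ o l = φ o' l' → o = o' ∧ l = l') (j : Fin ζ)
    {p : ℝ} (hp0 : 0 < p) (hp1 : p ≤ 1) (hp : p ≤ 1 - (1 - 1 / (b : ℝ)) ^ L) (k : ℕ) (hk : k ≤ m) :
    mean (fun s : Fin n → Fin ζ → Fin b =>
      if ((Acc φ j k s).card : ℝ) < b * (p / 2) ^ k then (1 : ℝ) else 0) ≤
      k * (4 / (b * (p / 2) ^ k * p ^ 2)) := by
  have hb : 1 ≤ b := Nat.one_le_iff_ne_zero.mpr (NeZero.ne b)
  have hb0 : (0 : ℝ) < b := by exact_mod_cast hb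
  induction k with
  | zero =>
    simp only [Acc_zero, Finset.card_univ, Fintype.card_fin, pow_zero, mul_one, lt_irrefl,
      if_false]
    rw [mean_const]; simp
  | succ k ih =>
    have ih' := ih (Nat.le_of_succ_le hk)
    rw [mean_resample (univ.image (φ (some (j, ⟨k, hk⟩))))]
    have hstep : ∀ s : Fin n → Fin ζ → Fin b,
        mean (fun u => if ((Acc φ j (k + 1) (ov (univ.image (φ (some (j, ⟨k, hk⟩)))) s u)).card : ℝ)
          < b * (p / 2) ^ (k + 1) then (1 : ℝ) else 0) ≤
        (if ((Acc φ j k s).card : ℝ) < b * (p / 2) ^ k then (1 : ℝ) else 0) +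
          4 / (b * (p / 2) ^ k * p ^ 2) := by
      intro s
      have e1 : ∀ u, Acc φ j (k + 1) (ov (univ.image (φ (some (j, ⟨k, hk⟩)))) s u) =
        (Acc φ j k s).filter (fun β => ∃ l, u (φ (some (j, ⟨k, hk⟩)) l) j = β) := fun u =>
          Acc_ov hφ j ⟨k, hk⟩ s u
      simp only [e1]
      by_cases h : ((Acc φ j k s).card : ℝ) < b * (p / 2) ^ k
      · rw [if_pos h]
        have h1 : mean (fun u : Fin n → Fin ζ → Fin b =>
            if (((Acc φ j k s).filter (fun β => ∃ l, u (φ (some (j, ⟨k, hk⟩)) l) j = β)).card : ℝ)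
              < b * (p / 2) ^ (k + 1) then (1 : ℝ) else 0) ≤ 1 := by
          calc _ ≤ mean (fun _ : Fin n → Fin ζ → Fin b => (1 : ℝ)) :=
                mean_mono fun u => ind_le_one _
            _ = 1 := mean_const 1
        have h2 : 0 ≤ 4 / (b * (p / 2) ^ k * p ^ 2) := by positivity
        linarith
      · rw [if_neg h, zero_add]
        push Not at h
        have hApos : (0 : ℝ) < (Acc φ j k s).card := lt_of_lt_of_le (by positivity) h
        have hA : 0 < (Acc φ j k s).card := by exact_mod_cast hApos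
        have h1 := hit_many hb (Acc φ j k s) j (φ (some (j, ⟨k, hk⟩)))
          (fun l l' h' => (hφ _ _ _ _ h').2) hA hp0 hp
        refine le_trans (mean_mono fun u => ?_) (h1.trans ?_)
        · split_ifs with h2 h3
          · exact le_rfl
          · exfalso
            apply h3
            refine lt_of_lt_of_le h2 ?_
            calc b * (p / 2) ^ (k + 1) = (b * (p / 2) ^ k) * (p / 2) := by ring
              _ ≤ (Acc φ j k s).card * (p / 2) := by gcongr
              _ = _ := by ring
          · norm_num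
          · exact le_rfl
        · gcongr
    refine (mean_mono hstep).trans ?_
    rw [mean_add, mean_const]
    have h3 : 4 / (b * (p / 2) ^ k * p ^ 2) ≤ 4 / (b * (p / 2) ^ (k + 1) * p ^ 2) := by
      apply div_le_div_of_nonneg_left (by norm_num) (by positivity)
      have : (p / 2) ^ (k + 1) ≤ (p / 2) ^ k := by
        rw [pow_succ]
        have h5 : 0 ≤ (p / 2) ^ k := by positivity
        nlinarith
      gcongr
    have h4 : (k : ℝ) * (4 / (b * (p / 2) ^ k * p ^ 2)) ≤
        k * (4 / (b * (p / 2) ^ (k + 1) * p ^ 2)) := by gcongr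
    push_cast
    linarith

lemma Good_ov (hφ : ∀ o o' l l', φ o l = φ o' l' → o = o' ∧ l = l')
    (s u : Fin n → Fin ζ → Fin b) :
    Good φ (ov (univ.image (φ none)) s u) ↔
      ∃ l0, ∀ j, u (φ none l0) j ∈ Acc φ j m s := by
  have h1 : ∀ l, ov (univ.image (φ none)) s u (φ none l) = u (φ none l) := fun l =>
    ov_mem (Finset.mem_image_of_mem _ (Finset.mem_univ l))
  have h2 : ∀ a l, ov (univ.image (φ none)) s u (φ (some a) l) = s (φ (some a) l) := by
    intro a l
    apply ov_not
    intro h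
    obtain ⟨l', _, hl'⟩ := Finset.mem_image.mp h
    exact absurd (hφ _ _ _ _ hl').1 (by simp)
  unfold Good Acc
  simp only [h1, h2, Finset.mem_filter, Finset.mem_univ, true_and]
  constructor
  · rintro ⟨l0, h⟩
    exact ⟨l0, fun j t _ => h (j, t)⟩
  · rintro ⟨l0, h⟩
    exact ⟨l0, fun a => h a.1 a.2 a.2.2⟩

open scoped Classical in
/-- there is a star with high probability -/
lemma Good_prob [NeZero b] (hφ : ∀ o o' l l', φ o l = φ o' l' → o = o' ∧ l = l')
    {p : ℝ} (hp0 : 0 < p) (hp1 : p ≤ 1) (hp : p ≤ 1 - (1 - 1 / (b : ℝ)) ^ L) :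
    mean (fun s : Fin n → Fin ζ → Fin b => if Good φ s then (0 : ℝ) else 1) ≤
      ζ * (m * (4 / (b * (p / 2) ^ m * p ^ 2))) + (1 - ((p / 2) ^ m) ^ ζ) ^ L := by
  have hb : 1 ≤ b := Nat.one_le_iff_ne_zero.mpr (NeZero.ne b)
  have hb0 : (0 : ℝ) < b := by exact_mod_cast hb
  have hx0 : 0 ≤ (p / 2) ^ m := by positivity
  have hx1 : (p / 2) ^ m ≤ 1 := pow_le_one₀ (by positivity) (by linarith)
  have hy1 : ((p / 2) ^ m) ^ ζ ≤ 1 := pow_le_one₀ hx0 hx1
  rw [mean_resample (univ.image (φ none))]
  have hstep : ∀ s : Fin n → Fin ζ → Fin b,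
      mean (fun u => if Good φ (ov (univ.image (φ none)) s u) then (0 : ℝ) else 1) ≤
      (∑ j : Fin ζ, if ((Acc φ j m s).card : ℝ) < b * (p / 2) ^ m then (1 : ℝ) else 0) +
        (1 - ((p / 2) ^ m) ^ ζ) ^ L := by
    intro s
    by_cases h : ∃ j, ((Acc φ j m s).card : ℝ) < b * (p / 2) ^ m
    · obtain ⟨j, hj⟩ := h
      have h1 : mean (fun u => if Good φ (ov (univ.image (φ none)) s u) then (0 : ℝ) else 1) ≤ 1 := by
        calc _ ≤ mean (fun _ : Fin n → Fin ζ → Fin b => (1 : ℝ)) :=
              mean_mono fun u => by split_ifs <;> norm_num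
          _ = 1 := mean_const 1
      have h2 : (1 : ℝ) ≤ ∑ j : Fin ζ, if ((Acc φ j m s).card : ℝ) < b * (p / 2) ^ m then (1 : ℝ)
          else 0 := by
        have := Finset.single_le_sum (f := fun j : Fin ζ =>
          if ((Acc φ j m s).card : ℝ) < b * (p / 2) ^ m then (1 : ℝ) else 0)
          (fun j _ => ind_nonneg _) (Finset.mem_univ j)
        simpa only [if_pos hj] using this
      have h3 : 0 ≤ (1 - ((p / 2) ^ m) ^ ζ) ^ L := pow_nonneg (by linarith) _
      linarith
    · push Not at h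
      have h0 : 0 ≤ ∑ j : Fin ζ, if ((Acc φ j m s).card : ℝ) < b * (p / 2) ^ m then (1 : ℝ)
          else 0 := Finset.sum_nonneg fun j _ => ind_nonneg _
      have e1 : ∀ u : Fin n → Fin ζ → Fin b,
          (if Good φ (ov (univ.image (φ none)) s u) then (0 : ℝ) else 1) =
          ∏ l : Fin L, (if ∀ j, u (φ none l) j ∈ Acc φ j m s then (0 : ℝ) else 1) := by
        intro u
        rw [show Good φ (ov (univ.image (φ none)) s u) = _ from propext (Good_ov hφ s u)]
        by_cases hg : ∃ l0, ∀ j, u (φ none l0) j ∈ Acc φ j m s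
        · rw [if_pos hg]
          obtain ⟨l0, hl0⟩ := hg
          rw [Finset.prod_eq_zero (Finset.mem_univ l0)]
          rw [if_pos hl0]
        · rw [if_neg hg, Finset.prod_eq_one]
          intro l _
          rw [if_neg (fun h' => hg ⟨l, h'⟩)]
      simp only [e1]
      rw [mean_rows (φ none) (fun l l' h' => (hφ _ _ _ _ h').2)
        (fun v : Fin ζ → Fin b => if ∀ j, v j ∈ Acc φ j m s then (0 : ℝ) else 1)]
      have e2 : mean (fun v : Fin ζ → Fin b => if ∀ j, v j ∈ Acc φ j m s then (0 : ℝ) else 1) =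
          1 - ∏ j : Fin ζ, ((Acc φ j m s).card : ℝ) / b := by
        have e3 : ∀ v : Fin ζ → Fin b, (if ∀ j, v j ∈ Acc φ j m s then (0 : ℝ) else 1) =
            1 - ∏ j, (if v j ∈ Acc φ j m s then (1 : ℝ) else 0) := by
          intro v
          rw [← ind_prod]
          split_ifs <;> norm_num
        simp only [e3]
        rw [mean_sub, mean_const, mean_pi (fun (j : Fin ζ) (β : Fin b) =>
          if β ∈ Acc φ j m s then (1 : ℝ) else 0)]
        congr 1
        refine Finset.prod_congr rfl fun j _ => ?_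
        unfold mean
        rw [Finset.sum_boole, Fintype.card_fin]
        congr 2
        rw [Finset.filter_mem_eq_inter, Finset.univ_inter]
      have e4 : ((p / 2) ^ m) ^ ζ ≤ ∏ j : Fin ζ, ((Acc φ j m s).card : ℝ) / b := by
        calc ((p / 2) ^ m) ^ ζ = ∏ _j : Fin ζ, (p / 2) ^ m := by
              rw [Finset.prod_const, Finset.card_univ, Fintype.card_fin]
          _ ≤ _ := by
              refine Finset.prod_le_prod (fun _ _ => hx0) fun j _ => ?_
              rw [le_div_iff₀ hb0, mul_comm]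
              exact h j
      have e5 : 0 ≤ mean (fun v : Fin ζ → Fin b =>
          if ∀ j, v j ∈ Acc φ j m s then (0 : ℝ) else 1) :=
        mean_nonneg fun v => by split_ifs <;> norm_num
      have e6 : mean (fun v : Fin ζ → Fin b => if ∀ j, v j ∈ Acc φ j m s then (0 : ℝ) else 1) ^ L ≤
          (1 - ((p / 2) ^ m) ^ ζ) ^ L := by
        apply pow_le_pow_left₀ e5
        rw [e2]; linarith
      linarith
  refine (mean_mono hstep).trans ?_
  rw [mean_add, mean_const, mean_sum]
  have h5 : ∑ j : Fin ζ, mean (fun s : Fin n → Fin ζ → Fin b =>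
      if ((Acc φ j m s).card : ℝ) < b * (p / 2) ^ m then (1 : ℝ) else 0) ≤
      ∑ _j : Fin ζ, m * (4 / (b * (p / 2) ^ m * p ^ 2)) :=
    Finset.sum_le_sum fun j _ => Acc_large hφ j hp0 hp1 hp m le_rfl
  rw [Finset.sum_const, Finset.card_univ, Fintype.card_fin, nsmul_eq_mul] at h5
  linarith

/-- the vectors supported on the first `r` coordinates -/
def coordSub (n r : ℕ) : Submodule ℝ (Fin n → ℝ) where
  carrier := {x | ∀ i : Fin n, r ≤ i.val → x i = 0}
  add_mem' := by
    intro x y hx hy i hi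
    rw [Pi.add_apply, hx i hi, hy i hi, add_zero]
  zero_mem' := fun i _ => rfl
  smul_mem' := by
    intro c x hx i hi
    rw [Pi.smul_apply, hx i hi, smul_zero]

lemma mem_coordSub {r : ℕ} {x : Fin n → ℝ} :
    x ∈ coordSub n r ↔ ∀ i : Fin n, r ≤ i.val → x i = 0 := Iff.rfl

open scoped Classical in
/-- the probability of injectivity on the coordinate subspace -/
lemma inj_prob [NeZero b] {r : ℕ} (hm : 1 ≤ m)
    (hφ : ∀ o o' l l', φ o l = φ o' l' → o = o' ∧ l = l')
    (hr : ∀ o l, (φ o l).val < r)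
    {p : ℝ} (hp0 : 0 < p) (hp1 : p ≤ 1) (hp : p ≤ 1 - (1 - 1 / (b : ℝ)) ^ L)
    {α : ℝ} (hα : 0 < α) :
    mean (fun ω : Outcome n ζ b =>
      if ∀ x ∈ coordSub n r, α * nsq x ≤ nsq ((Om ω).transpose.mulVec x) then (1 : ℝ) else 0) ≤
      ζ * (m * (4 / (b * (p / 2) ^ m * p ^ 2))) + (1 - ((p / 2) ^ m) ^ ζ) ^ L + ζ / m / α := by
  rw [mean_prod]
  have hstep : ∀ s : Fin n → Fin ζ → Fin b,
      mean (fun ρ : Fin n → Fin ζ → Bool =>
        if ∀ x ∈ coordSub n r, α * nsq x ≤ nsq ((Om (s, ρ)).transpose.mulVec x) then (1 : ℝ)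
        else 0) ≤ (if Good φ s then (0 : ℝ) else 1) + ζ / m / α := by
    intro s
    have hnn : 0 ≤ (ζ : ℝ) / m / α := by positivity
    by_cases h : Good φ s
    · rw [if_pos h, zero_add]
      obtain ⟨l0, hl0⟩ := h
      choose c' hc' using hl0
      set i0 := φ none l0 with hi0
      set c : Fin ζ × Fin m → Fin n := fun a => φ (some a) (c' a) with hc
      have hcinj : Function.Injective c := by
        intro a a' h'
        have := (hφ _ _ _ _ h').1
        simpa using this
      have h0 : ∀ a, c a ≠ i0 := by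
        intro a h'
        exact absurd (hφ _ _ _ _ h').1 (by simp)
      have hs : ∀ a : Fin ζ × Fin m, s (c a) a.1 = s i0 a.1 := hc'
      have h1 := mean_energy hm hcinj h0 hs
      have h2 := mean_markov (f := fun ρ => nsq ((Om (s, ρ)).transpose.mulVec (xv i0 c ρ)))
        (fun ρ => nsq_nonneg _) hα
      refine le_trans (mean_mono fun ρ => ?_) (h2.trans (by gcongr))
      split_ifs with h3 h4
      · exact le_rfl
      · exfalso
        apply h4
        have h5 : xv i0 c ρ ∈ coordSub n r := by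
          intro i hi
          apply xv_zero
          · intro h'; rw [h'] at hi; exact absurd (hr none l0) (not_lt.mpr hi)
          · intro a h'; rw [h'] at hi; exact absurd (hr (some a) (c' a)) (not_lt.mpr hi)
        refine le_trans ?_ (h3 _ h5)
        have h6 := sq_le_nsq (xv i0 c ρ) i0
        rw [xv_root h0, one_pow] at h6
        nlinarith
      · norm_num
      · exact le_rfl
    · rw [if_neg h]
      have h1 : mean (fun ρ : Fin n → Fin ζ → Bool =>
        if ∀ x ∈ coordSub n r, α * nsq x ≤ nsq ((Om (s, ρ)).transpose.mulVec x) then (1 : ℝ)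
        else 0) ≤ 1 := by
        calc _ ≤ mean (fun _ : Fin n → Fin ζ → Bool => (1 : ℝ)) :=
              mean_mono fun u => ind_le_one _
          _ = 1 := mean_const 1
      linarith
  refine (mean_mono hstep).trans ?_
  rw [mean_add, mean_const]
  have := Good_prob (n := n) (ζ := ζ) (b := b) hφ hp0 hp1 hp
  linarith

end

end Pool.Agent.V7H96.SS
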